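import Pool.Agent.Y599.SC.Lex

set_option autoImplicit false

open Pool.Agent.Helper227 Pool.Agent.Y599.SC

namespace Pool.Agent.Results.MP_40eef6_lc.Classification

open Classical in
/-- The characteristic function of a set of natural numbers, used as an oracle. -/
noncomputable def chr (A : Set ℕ) : ℕ →. ℕ := fun n => Part.some (if n ∈ A then 1 else 0)

/-- A problem: a type of instances, each with a set of solutions, which are sets of natural
numbers. -/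
structure Problem where
  Inst : Type
  Sol : Inst → Set ℕ → Prop

/-- Ramsey's theorem `RT^n_k`: the instances are all colourings of the `n`-element sets of natural
numbers with `k` colours; the solutions are the infinite homogeneous sets. -/
def RT (n k : ℕ) : Problem where
  Inst := {s : Finset ℕ // s.card = n} → Fin k
  Sol c H := H.Infinite ∧ ∃ i : Fin k, ∀ s : {s : Finset ℕ // s.card = n}, (s.1 : Set ℕ) ⊆ H → c s = i

/-- Ramsey's theorem `RT^n_{<∞}`: the instances are all colourings of the `n`-element sets of natural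
numbers with any finite number of colours. -/
def RTfin (n : ℕ) : Problem where
  Inst := Σ k : ℕ, (RT n k).Inst
  Sol c H := (RT n c.1).Sol c.2 H

/-- Ramsey's theorem `RT`: the instances are all colourings of the `n`-element sets of natural
numbers with any finite number of colours, for all `n ≥ 1`. -/
def RTall : Problem where
  Inst := Σ n : ℕ, (RTfin (n + 1)).Inst
  Sol c H := (RTfin (c.1 + 1)).Sol c.2 H

/-- The (parallel) product of two problems: the solutions of a pair of instances are the joins of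
a solution of the first one (even part) and of a solution of the second one (odd part). -/
def Times (P Q : Problem) : Problem where
  Inst := P.Inst × Q.Inst
  Sol X Y := P.Sol X.1 {x | 2 * x ∈ Y} ∧ Q.Sol X.2 {x | 2 * x + 1 ∈ Y}

/-- Strong omniscient computable reducibility: to every instance `X` of `P` one can assign some
instance `X'` of `Q` such that every solution of `X'` Turing-computes some solution of `X`. -/
def SocLe (P Q : Problem) : Prop :=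
  ∀ X : P.Inst, ∃ X' : Q.Inst, ∀ Y', Q.Sol X' Y' →
    ∃ Y, P.Sol X Y ∧ TuringReducible (chr Y) (chr Y')

/-- The same reducibility, with the help of oracles: `𝒵` is a family of sets of natural numbers,
fixed in advance, and to every instance `X` of `P` one can assign some instance `X'` of `Q` such
that every solution `Y'` of `X'`, together with some member `Z` of `𝒵` (which may depend on `X`
and on `Y'`), computes some solution of `X`. -/
def SocLeRel (𝒵 : Set (Set ℕ)) (P Q : Problem) : Prop :=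
  ∀ X : P.Inst, ∃ X' : Q.Inst, ∀ Y', Q.Sol X' Y' →
    ∃ Z ∈ 𝒵, ∃ Y, P.Sol X Y ∧ RecursiveIn {chr Y', chr Z} (chr Y)

theorem chr_eq (A : Set ℕ) [DecidablePred (· ∈ A)] : chr A = chi fun x => decide (x ∈ A) := by
  funext n
  unfold chr chi
  by_cases h : n ∈ A
  · simp [h]
  · simp [h]

theorem SocLe.trans {P Q R : Problem} (h1 : SocLe P Q) (h2 : SocLe Q R) : SocLe P R := by
  intro X
  obtain ⟨X', hX'⟩ := h1 X
  obtain ⟨X'', hX''⟩ := h2 X'
  refine ⟨X'', fun Y'' hY'' => ?_⟩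
  obtain ⟨Y', hY', a⟩ := hX'' Y'' hY''
  obtain ⟨Y, hY, b⟩ := hX' Y' hY'
  exact ⟨Y, hY, b.trans a⟩

theorem SocLe.rel {P Q : Problem} (h : SocLe P Q) {𝒵 : Set (Set ℕ)} (h𝒵 : 𝒵.Nonempty) :
    SocLeRel 𝒵 P Q := by
  obtain ⟨Z, hZ⟩ := h𝒵
  intro X
  obtain ⟨X', hX'⟩ := h X
  refine ⟨X', fun Y' hY' => ?_⟩
  obtain ⟨Y, hY, a⟩ := hX' Y' hY'
  exact ⟨Z, hZ, Y, hY, a.mono (by simp)⟩

theorem SocLe.trans_rel {𝒵 : Set (Set ℕ)} {P Q R : Problem} (h1 : SocLe P Q)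
    (h2 : SocLeRel 𝒵 Q R) : SocLeRel 𝒵 P R := by
  intro X
  obtain ⟨X', hX'⟩ := h1 X
  obtain ⟨X'', hX''⟩ := h2 X'
  refine ⟨X'', fun Y'' hY'' => ?_⟩
  obtain ⟨Z, hZ, Y', hY', a⟩ := hX'' Y'' hY''
  obtain ⟨Y, hY, b⟩ := hX' Y' hY'
  refine ⟨Z, hZ, Y, hY, b.subst fun g hg => ?_⟩
  rw [Set.mem_singleton_iff] at hg
  subst hg
  exact a

theorem SocLeRel.trans_soc {𝒵 : Set (Set ℕ)} {P Q R : Problem} (h1 : SocLeRel 𝒵 P Q)
    (h2 : SocLe Q R) : SocLeRel 𝒵 P R := by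
  intro X
  obtain ⟨X', hX'⟩ := h1 X
  obtain ⟨X'', hX''⟩ := h2 X'
  refine ⟨X'', fun Y'' hY'' => ?_⟩
  obtain ⟨Y', hY', a⟩ := hX'' Y'' hY''
  obtain ⟨Z, hZ, Y, hY, b⟩ := hX' Y' hY'
  refine ⟨Z, hZ, Y, hY, b.subst fun g hg => ?_⟩
  rcases hg with rfl | hg
  · exact a.mono (by simp)
  · rw [Set.mem_singleton_iff] at hg
    subst hg
    exact RecursiveIn.oracle _ (by simp)

/-- one colour. -/
theorem one_le (m n k : ℕ) (hk : 1 ≤ k) : SocLe (RT m 1) (RT n k) := by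
  intro X
  refine ⟨fun _ => ⟨0, hk⟩, fun Y' hY' => ⟨Y', ⟨hY'.1, 0, fun s _ => Subsingleton.elim _ _⟩, ?_⟩⟩
  exact TuringReducible.refl _

/-- more colours. -/
theorem colours_le (n j k : ℕ) (hjk : j ≤ k) : SocLe (RT n j) (RT n k) := by
  intro X
  refine ⟨fun s => Fin.castLE hjk (X s), fun Y' hY' => ⟨Y', ⟨hY'.1, ?_⟩, TuringReducible.refl _⟩⟩
  obtain ⟨hinf, i, hi⟩ := hY'
  obtain ⟨X0, hX0, hX0c⟩ := hinf.exists_subset_card_eq n
  refine ⟨X ⟨X0, hX0c⟩, fun s hs => ?_⟩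
  have h1 : Fin.castLE hjk (X s) = Fin.castLE hjk (X ⟨X0, hX0c⟩) :=
    (hi s hs).trans (hi ⟨X0, hX0c⟩ hX0).symm
  exact Fin.castLE_injective hjk h1

/-- any number of colours reduces to two colours with one more exponent. -/
theorem succ_le (n j : ℕ) : SocLe (RT n j) (RT (n + 1) 2) := by
  classical
  intro c
  let c1 : Finset ℕ → Option (Fin j) := fun s => if hs : s.card = n then some (c ⟨s, hs⟩) else none
  let hom : Finset ℕ → Prop := fun B => ∀ X X', X ⊆ B → X' ⊆ B → X.card = n → X'.card = n → c1 X = c1 X'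
  let c' : {s : Finset ℕ // s.card = n + 1} → Fin 2 := fun s => if hom s.1 then 0 else 1
  refine ⟨c', fun Y hY => ⟨Y, ?_, TuringReducible.refl _⟩⟩
  obtain ⟨hYinf, i, hi⟩ := hY
  refine ⟨hYinf, ?_⟩
  obtain ⟨B0, col, hB1, hB2, hB3⟩ := SOC.ramsey n c1 Y hYinf
  have hhom0 : hom B0 := fun X X' h1 h2 h3 h4 => (hB3 X h1 h3).trans (hB3 X' h2 h4).symm
  have hi0 : i = 0 := by
    rw [← hi ⟨B0, hB2⟩ hB1]
    exact if_pos hhom0
  have hall : ∀ B : Finset ℕ, ↑B ⊆ Y → B.card = n + 1 → hom B := by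
    intro B hB hBc
    by_contra hcon
    have h1 := hi ⟨B, hBc⟩ hB
    have h2 : c' ⟨B, hBc⟩ = 1 := if_neg hcon
    rw [h2, hi0] at h1
    exact absurd h1 (by decide)
  have hconn := SOC.connect n c1 Y hall
  obtain ⟨X0, hX0, hX0c⟩ := hYinf.exists_subset_card_eq n
  refine ⟨c ⟨X0, hX0c⟩, fun s hs => ?_⟩
  have h1 := hconn s.1 X0 hs hX0 s.2 hX0c
  have h2 : c1 s.1 = some (c s) := dif_pos s.2
  have h3 : c1 X0 = some (c ⟨X0, hX0c⟩) := dif_pos hX0c
  rw [h2, h3] at h1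
  exact Option.some_injective _ h1

theorem lt_le (m j n : ℕ) (h : m < n) : SocLe (RT m j) (RT n 2) := by
  induction n, h using Nat.le_induction with
  | base => exact succ_le m j
  | succ n _ ih => exact ih.trans (succ_le n 2)

theorem neg (𝒵 : Set (Set ℕ)) (h𝒵 : 𝒵.Countable) (n k : ℕ) (hn : 1 ≤ n) (hk : 1 ≤ k) :
    ¬ SocLeRel 𝒵 (RT n (k + 1)) (RT n k) := by
  classical
  obtain ⟨m0, rfl⟩ : ∃ m0, n = m0 + 1 := ⟨n - 1, by omega⟩
  obtain ⟨c0, hc0⟩ := comp_rel ((fun (Z : Set ℕ) (x : ℕ) => decide (x ∈ Z)) '' 𝒵) (h𝒵.image _) m0 k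
  intro h
  obtain ⟨X', hX'⟩ := h fun s => c0 s.1
  let d : Finset ℕ → Fin k := fun s => if hs : s.card = m0 + 1 then X' ⟨s, hs⟩ else ⟨0, hk⟩
  obtain ⟨H, hH1, ⟨j, hH2⟩, hH3⟩ := hc0 d
  obtain ⟨Z, hZ, Y, hY1, hY2⟩ := hX' {x | H x = true} ⟨hH1, j, fun s hs => by
    have := hH2 s.1 (fun x hx => hs hx) s.2
    rw [← this]
    change X' s = dite _ _ _
    rw [dif_pos s.2]⟩
  have e1 : (fun x => decide (x ∈ {x | H x = true})) = H := by
    funext x
    simp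
  rw [chr_eq {x | H x = true}, e1, chr_eq Z, chr_eq Y] at hY2
  have hrec : Nat.RecursiveIn {chi H, chi fun x => decide (x ∈ Z)} (chi fun x => decide (x ∈ Y)) :=
    RecursiveIn.iff_nat.1 hY2
  obtain ⟨hYinf, i, hi⟩ := hY1
  refine hH3 _ ⟨Z, hZ, rfl⟩ _ hrec ?_ ⟨i, fun B hB hBc => ?_⟩
  · have hYe : {x | (fun x => decide (x ∈ Y)) x = true} = Y := by
      ext x
      simp
    rw [hYe]
    exact hYinf
  · exact hi ⟨B, hBc⟩ fun x hx => by simpa using hB x hx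

theorem neg_fin (𝒵 : Set (Set ℕ)) (h𝒵 : 𝒵.Countable) (n : ℕ) (hn : 1 ≤ n) :
    ¬ SocLeRel 𝒵 (RT (n + 1) 2) (RTfin n) := by
  classical
  obtain ⟨m0, rfl⟩ : ∃ m0, n = m0 + 1 := ⟨n - 1, by omega⟩
  choose c0 hc0 using fun k =>
    comp_rel ((fun (Z : Set ℕ) (x : ℕ) => decide (x ∈ Z)) '' 𝒵) (h𝒵.image _) m0 k
  let F : Finset ℕ → ℕ → ℕ := fun s i => (c0 i s).val
  have hF : ∀ s i, F s i ≤ i := fun s i => Nat.lt_succ_iff.1 (c0 i s).isLt
  intro h
  obtain ⟨⟨k, X'⟩, hX'⟩ := h fun s => lexcol F s.1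
  have hk : 0 < k := lt_of_le_of_lt (Nat.zero_le _) (X' ⟨Finset.range (m0 + 1), by simp⟩).isLt
  let d : Finset ℕ → Fin k := fun s => if hs : s.card = m0 + 1 then X' ⟨s, hs⟩ else ⟨0, hk⟩
  obtain ⟨H, hH1, ⟨j, hH2⟩, hH3⟩ := hc0 k d
  obtain ⟨Z, hZ, Y, ⟨hYinf, i, hi⟩, hY2⟩ := hX' {x | H x = true} ⟨hH1, j, fun s hs => by
    have := hH2 s.1 (fun x hx => hs hx) s.2
    rw [← this]
    change X' s = dite _ _ _
    rw [dif_pos s.2]⟩
  have e1 : (fun x => decide (x ∈ {x | H x = true})) = H := by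
    funext x
    simp
  rw [chr_eq {x | H x = true}, e1, chr_eq Z, chr_eq Y] at hY2
  have hrec : Nat.RecursiveIn {chi H, chi fun x => decide (x ∈ Z)} (chi fun x => decide (x ∈ Y)) :=
    RecursiveIn.iff_nat.1 hY2
  obtain ⟨p, v, hp⟩ := lexcol_conv F hF Y hYinf (m0 + 1) i (fun s hs hc => hi ⟨s, hc⟩ hs) k
  have hmem : ∀ x, ((decide (x ∈ Y) && decide (p ≤ x)) = true ↔ x ∈ Y ∧ p ≤ x) := by
    intro x
    simp
  refine hH3 _ ⟨Z, hZ, rfl⟩ _ (rec_ge _ p hrec) ?_ ?_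
  · have hYe : {x | (decide (x ∈ Y) && decide (p ≤ x)) = true} = Y \ Set.Iio p := by
      ext x
      rw [Set.mem_setOf_eq, hmem, Set.mem_diff, Set.mem_Iio, not_lt]
    rw [hYe]
    exact hYinf.diff (Set.finite_Iio p)
  · obtain ⟨B0, hB0, hB0c⟩ := (hYinf.diff (Set.finite_Iio p)).exists_subset_card_eq (m0 + 1)
    refine ⟨c0 k B0, fun B hB hBc => Fin.ext ?_⟩
    have a1 := hp B (fun x hx => ((hmem x).1 (hB x hx)).1) hBc fun x hx => ((hmem x).1 (hB x hx)).2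
    have a2 := hp B0 (fun x hx => (hB0 hx).1) hB0c fun x hx => not_lt.1 (hB0 (Finset.mem_coe.2 hx)).2
    exact a1.trans a2.symm

theorem pos_cases (m n j k : ℕ) (hk : 1 ≤ k)
    (h : j = 1 ∨ (m < n ∧ 2 ≤ k) ∨ (m = n ∧ j ≤ k)) : SocLe (RT m j) (RT n k) := by
  rcases h with rfl | ⟨h1, h2⟩ | ⟨rfl, h2⟩
  · exact one_le m n k hk
  · exact (lt_le m j n h1).trans (colours_le n 2 k h2)
  · exact colours_le m j k h2

theorem neg_cases (𝒵 : Set (Set ℕ)) (h𝒵 : 𝒵.Countable) (m n j k : ℕ) (hm : 1 ≤ m) (hn : 1 ≤ n)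
    (hj : 1 ≤ j) (hk : 1 ≤ k) (h : SocLeRel 𝒵 (RT m j) (RT n k)) :
    j = 1 ∨ (m < n ∧ 2 ≤ k) ∨ (m = n ∧ j ≤ k) := by
  by_contra hcon
  push Not at hcon
  obtain ⟨h1, h2, h3⟩ := hcon
  rcases lt_trichotomy m n with hmn | rfl | hmn
  · have hk1 : k = 1 := by
      have := h2 hmn
      omega
    subst hk1
    refine neg 𝒵 h𝒵 m 1 hm le_rfl ?_
    exact (colours_le m 2 j (by omega)).trans_rel (h.trans_soc (one_le n m 1 le_rfl))
  · have := h3 rfl
    exact neg 𝒵 h𝒵 m k hm hk ((colours_le m (k + 1) j (by omega)).trans_rel h)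
  · refine neg 𝒵 h𝒵 n k hn hk ?_
    exact ((lt_le n (k + 1) m hmn).trans (colours_le m 2 j (by omega))).trans_rel h

/-- `RT^n_k` reduces to `RT^n_{<∞}`. -/
theorem le_fin (n k : ℕ) : SocLe (RT n k) (RTfin n) := fun X =>
  ⟨⟨k, X⟩, fun Y' hY' => ⟨Y', hY', TuringReducible.refl _⟩⟩

/-- `RT^n_{<∞}` reduces to any problem to which all `RT^n_k` reduce. -/
theorem fin_le (n : ℕ) (Q : Problem) (h : ∀ k, SocLe (RT n k) Q) : SocLe (RTfin n) Q := fun X =>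
  h X.1 X.2

theorem fin_fin (m n : ℕ) (h : m ≤ n) : SocLe (RTfin m) (RTfin n) := by
  rcases h.eq_or_lt with rfl | h
  · exact fin_le m _ fun k => le_fin m k
  · exact fin_le m _ fun k => (lt_le m k n h).trans (le_fin n 2)

theorem fin_all (n : ℕ) (hn : 1 ≤ n) : SocLe (RTfin n) RTall := by
  obtain ⟨m, rfl⟩ : ∃ m, n = m + 1 := ⟨n - 1, by omega⟩
  exact fun X => ⟨⟨m, X⟩, fun Y' hY' => ⟨Y', hY', TuringReducible.refl _⟩⟩

/-- the problems below `RT^n_{<∞}` are closed under products. -/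
theorem times_le (n : ℕ) (P Q : Problem) (h1 : SocLe P (RTfin n)) (h2 : SocLe Q (RTfin n)) :
    SocLe (Times P Q) (RTfin n) := by
  classical
  rintro ⟨X1, X2⟩
  obtain ⟨⟨k1, d1⟩, hd1⟩ := h1 X1
  obtain ⟨⟨k2, d2⟩, hd2⟩ := h2 X2
  refine ⟨⟨k1 * k2, fun s => finProdFinEquiv (d1 s, d2 s)⟩, fun Y' hY' => ?_⟩
  obtain ⟨hinf, i, hi⟩ := hY'
  have hpair : ∀ s : {s : Finset ℕ // s.card = n}, (s.1 : Set ℕ) ⊆ Y' →
      (d1 s, d2 s) = finProdFinEquiv.symm i := by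
    intro s hs
    rw [Equiv.eq_symm_apply]
    exact hi s hs
  obtain ⟨Y1, hY1, r1⟩ := hd1 Y' ⟨hinf, (finProdFinEquiv.symm i).1, fun s hs => by
    rw [← hpair s hs]⟩
  obtain ⟨Y2, hY2, r2⟩ := hd2 Y' ⟨hinf, (finProdFinEquiv.symm i).2, fun s hs => by
    rw [← hpair s hs]⟩
  let J : ℕ → Bool := jn (fun x => decide (x ∈ Y1)) (fun x => decide (x ∈ Y2))
  refine ⟨{x | J x = true}, ⟨?_, ?_⟩, ?_⟩
  · have : {x | 2 * x ∈ {x | J x = true}} = Y1 := by
      ext x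
      change jn _ _ (2 * x) = true ↔ _
      rw [jn_left]
      simp
    rw [this]
    exact hY1
  · have : {x | 2 * x + 1 ∈ {x | J x = true}} = Y2 := by
      ext x
      change jn _ _ (2 * x + 1) = true ↔ _
      rw [jn_right]
      simp
    rw [this]
    exact hY2
  · have e : chr {x | J x = true} = chi J := by
      rw [chr_eq]
      congr 1
      funext x
      simp
    rw [e]
    rw [chr_eq Y1] at r1
    rw [chr_eq Y2] at r2
    exact RecursiveIn.iff_nat.2 (rec_join _ _ (RecursiveIn.iff_nat.1 r1) (RecursiveIn.iff_nat.1 r2))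

/-- The classification, for a reducibility which is `SocLe` or `SocLeRel 𝒵` with `𝒵` countable. -/
theorem classify (R : Problem → Problem → Prop)
    (hR : R = SocLe ∨ ∃ 𝒵 : Set (Set ℕ), 𝒵.Countable ∧ 𝒵.Nonempty ∧ R = SocLeRel 𝒵) :
    (∀ m n j k : ℕ, 1 ≤ m → 1 ≤ n → 1 ≤ j → 1 ≤ k →
      (R (RT m j) (RT n k) ↔ j = 1 ∨ (m < n ∧ 2 ≤ k) ∨ (m = n ∧ j ≤ k))) ∧
    (∀ m n j : ℕ, 1 ≤ m → 1 ≤ n → 1 ≤ j → (R (RT m j) (RTfin n) ↔ j = 1 ∨ m ≤ n)) ∧
    (∀ m n k : ℕ, 1 ≤ m → 1 ≤ n → 1 ≤ k → (R (RTfin m) (RT n k) ↔ m < n ∧ 2 ≤ k)) ∧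
    (∀ m n : ℕ, 1 ≤ m → 1 ≤ n → (R (RTfin m) (RTfin n) ↔ m ≤ n)) ∧
    (∀ n : ℕ, 1 ≤ n → R (RTfin n) RTall ∧ ¬ R RTall (RTfin n)) := by
  obtain ⟨𝒵, h𝒵, hR1, hR2⟩ : ∃ 𝒵 : Set (Set ℕ), 𝒵.Countable ∧
      (∀ P Q, R P Q → SocLeRel 𝒵 P Q) ∧ ∀ P Q, SocLe P Q → R P Q := by
    rcases hR with rfl | ⟨𝒵, h𝒵, hne, rfl⟩
    · exact ⟨{∅}, Set.countable_singleton _, fun P Q h => h.rel (Set.singleton_nonempty _),
        fun P Q h => h⟩
    · exact ⟨𝒵, h𝒵, fun P Q h => h, fun P Q h => h.rel hne⟩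
  have nfin : ∀ m n j : ℕ, 1 ≤ n → 2 ≤ j → n < m → ¬ SocLeRel 𝒵 (RT m j) (RTfin n) := by
    intro m n j hn hj hmn h
    refine neg_fin 𝒵 h𝒵 n hn (SocLe.trans_rel ?_ h)
    refine pos_cases (n + 1) m 2 j (by omega) ?_
    omega
  refine ⟨fun m n j k hm hn hj hk => ⟨fun h => neg_cases 𝒵 h𝒵 m n j k hm hn hj hk (hR1 _ _ h),
    fun h => hR2 _ _ (pos_cases m n j k hk h)⟩, fun m n j hm hn hj => ⟨fun h => ?_, fun h => ?_⟩,
    fun m n k hm hn hk => ⟨fun h => ?_, fun h => ?_⟩, fun m n hm hn => ⟨fun h => ?_, fun h => ?_⟩,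
    fun n hn => ⟨hR2 _ _ (fin_all n hn), fun h => ?_⟩⟩
  · by_contra hcon
    push Not at hcon
    exact nfin m n j hn (by omega) (by omega) (hR1 _ _ h)
  · refine hR2 _ _ ?_
    rcases h with rfl | h
    · exact (one_le m n 1 le_rfl).trans (le_fin n 1)
    · exact (le_fin m j).trans (fin_fin m n h)
  · have h1 := neg_cases 𝒵 h𝒵 m n (k + 1) k hm hn (by omega) hk
      ((le_fin m (k + 1)).trans_rel (hR1 _ _ h))
    omega
  · exact hR2 _ _ (fin_le m _ fun j => pos_cases m n j k hk (Or.inr (Or.inl h)))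
  · by_contra hcon
    exact nfin m n 2 hn le_rfl (by omega) ((le_fin m 2).trans_rel (hR1 _ _ h))
  · exact hR2 _ _ (fin_fin m n h)
  · exact nfin (n + 1) n 2 hn le_rfl (by omega)
      (((le_fin (n + 1) 2).trans (fin_all (n + 1) (by omega))).trans_rel (hR1 _ _ h))

/-- Complete classification of the problems `RT^n_k`, `RT^n_{<∞}` and `RT` under strong omniscient
computable reducibility, which contains negative answers to both questions (first two items);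
the classification does not change when any countable set of oracles is allowed to help; and the
problems which reduce to `RT^n_{<∞}` are closed under products. -/
theorem result :
    (∀ n k : ℕ, 1 ≤ n → 1 ≤ k → ¬ SocLe (RT n (k + 1)) (RT n k)) ∧
    (∀ n j k : ℕ, 1 ≤ n → 2 ≤ j → 1 ≤ k → ¬ SocLe (RT (n + 1) j) (RT n k)) ∧
    (∀ R : Problem → Problem → Prop,
      (R = SocLe ∨ ∃ 𝒵 : Set (Set ℕ), 𝒵.Countable ∧ 𝒵.Nonempty ∧ R = SocLeRel 𝒵) →
      (∀ m n j k : ℕ, 1 ≤ m → 1 ≤ n → 1 ≤ j → 1 ≤ k →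
        (R (RT m j) (RT n k) ↔ j = 1 ∨ (m < n ∧ 2 ≤ k) ∨ (m = n ∧ j ≤ k))) ∧
      (∀ m n j : ℕ, 1 ≤ m → 1 ≤ n → 1 ≤ j → (R (RT m j) (RTfin n) ↔ j = 1 ∨ m ≤ n)) ∧
      (∀ m n k : ℕ, 1 ≤ m → 1 ≤ n → 1 ≤ k → (R (RTfin m) (RT n k) ↔ m < n ∧ 2 ≤ k)) ∧
      (∀ m n : ℕ, 1 ≤ m → 1 ≤ n → (R (RTfin m) (RTfin n) ↔ m ≤ n)) ∧
      (∀ n : ℕ, 1 ≤ n → R (RTfin n) RTall ∧ ¬ R RTall (RTfin n))) ∧
    (∀ n : ℕ, ∀ P Q : Problem, SocLe P (RTfin n) → SocLe Q (RTfin n) →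
      SocLe (Times P Q) (RTfin n)) := by
  have key := (classify SocLe (Or.inl rfl)).1
  refine ⟨?_, ?_, classify, times_le⟩
  · intro n k hn hk h
    have := (key n n (k + 1) k hn hn (by omega) hk).1 h
    omega
  · intro n j k hn hj hk h
    have := (key (n + 1) n j k (by omega) hn (by omega) hk).1 h
    omega

end Pool.Agent.Results.MP_40eef6_lc.Classification
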